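import Pool.Agent.H8.Spl.Tools

set_option autoImplicit false

open Set Filter Topology

namespace Pool.Agent.H8.Gul

open Pool.Agent.H8.Spl

theorem type_lt {Γ : Type} [LinearOrder Γ] [WellFoundedLT Γ] {a b : Set Γ} (hab : a ⊆ b) {x : Γ}
    (hx : x ∈ b) (hax : ∀ y ∈ a, y < x) :
    Ordinal.type (α := a) (· < ·) < Ordinal.type (α := b) (· < ·) := by
  refine lt_of_le_of_lt ?_ (Ordinal.typein_lt_type (α := b) (· < ·) ⟨x, hx⟩)
  rw [← Ordinal.type_subrel]
  refine RelEmbedding.ordinal_type_le ⟨⟨fun y => ⟨⟨y.1, hab y.2⟩, hax y.1 y.2⟩, ?_⟩, ?_⟩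
  · intro y z h
    exact Subtype.ext (congrArg (fun w => w.1.1) h)
  · intro y z
    exact Iff.rfl

theorem exists_code : ∃ ι : Ordinal.{0} → Set ℕ, ∀ a b, a < (Cardinal.aleph 1).ord →
    b < (Cardinal.aleph 1).ord → ι a = ι b → a = b := by
  classical
  have h1 : Cardinal.lift.{0} (Cardinal.mk (Set.Iio (Cardinal.aleph.{0} 1).ord)) ≤
      Cardinal.lift.{1} (Cardinal.mk (Set ℕ)) := by
    rw [Cardinal.mk_Iio_ordinal, Cardinal.mk_set_nat, Cardinal.card_ord]
    simp only [Cardinal.lift_lift, Cardinal.lift_id]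
    exact Cardinal.lift_le.2 Cardinal.aleph_one_le_continuum
  obtain ⟨f⟩ := Cardinal.lift_mk_le'.1 h1
  refine ⟨fun o => if h : o < (Cardinal.aleph 1).ord then f ⟨o, h⟩ else ∅, ?_⟩
  intro a b ha hb hab
  simp only [dif_pos ha, dif_pos hb] at hab
  exact congrArg Subtype.val (f.injective hab)

/-- countable sets can be coloured by reals so that comparable distinct sets get
different colours -/
theorem anti (Γ : Type) : ∃ c : Set Γ → Set ℕ, ∀ a b : Set Γ, b.Countable → a ⊆ b → a ≠ b →
    c a ≠ c b := by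
  classical
  obtain ⟨ι, hι⟩ := exists_code
  have main : ∀ (κ : Cardinal.{0}) (Γ : Type), Cardinal.mk Γ = κ →
      ∃ c : Set Γ → Set ℕ, ∀ a b : Set Γ, b.Countable → a ⊆ b → a ≠ b → c a ≠ c b := by
    intro κ
    induction κ using WellFoundedLT.induction with
    | ind κ IH =>
    intro Γ hΓ
    by_cases hκ : Cardinal.mk Γ ≤ Cardinal.continuum
    · have h1 : Cardinal.mk {t : Set Γ // Cardinal.mk t ≤ Cardinal.aleph0} ≤
          Cardinal.mk (Set ℕ) := by
        refine (Cardinal.mk_bounded_set_le Γ _).trans ?_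
        rw [Cardinal.mk_set_nat, ← Cardinal.continuum_power_aleph0]
        exact Cardinal.power_le_power_right (max_le hκ Cardinal.aleph0_lt_continuum.le)
      obtain ⟨j⟩ := (Cardinal.le_def _ _).1 h1
      refine ⟨fun t => if h : Cardinal.mk t ≤ Cardinal.aleph0 then j ⟨t, h⟩ else ∅, ?_⟩
      intro a b hb hab hne heq
      have hb' := Cardinal.le_aleph0_iff_set_countable.2 hb
      have ha' := Cardinal.le_aleph0_iff_set_countable.2 (hb.mono hab)
      simp only [dif_pos ha', dif_pos hb'] at heq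
      exact hne (congrArg Subtype.val (j.injective heq))
    · rw [not_le] at hκ
      obtain ⟨lo, wf, hlt⟩ := exists_wo Γ
      have hinf : Cardinal.aleph0 < Cardinal.mk Γ := Cardinal.aleph0_lt_continuum.trans hκ
      have hIic : ∀ i : Γ, Cardinal.mk (Iic i) < κ := by
        intro i
        have h1 : Iic i = insert i (Iio i) := by
          ext j
          simp [le_iff_eq_or_lt]
        rw [h1]
        refine (Cardinal.mk_insert_le).trans_lt ?_
        rw [← hΓ]
        exact Cardinal.add_lt_of_lt hinf.le (hlt i) (Cardinal.one_lt_aleph0.trans hinf)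
      choose cβ hcβ using fun i : Γ => IH _ (hIic i) (Iic i) rfl
      let F : Γ → Set Γ → Set ℕ := fun β b => cβ β (Subtype.val ⁻¹' b)
      have hF : ∀ β a b, b.Countable → a ⊆ b → (∃ y ∈ b, y ≤ β ∧ y ∉ a) → F β a ≠ F β b := by
        rintro β a b hb hab ⟨y, hyb, hyβ, hya⟩
        apply hcβ β
        · exact hb.preimage Subtype.val_injective
        · exact preimage_mono hab
        · intro h
          have h2 : (⟨y, hyβ⟩ : Iic β) ∈ (Subtype.val ⁻¹' a : Set (Iic β)) := by
            rw [h]
            exact hyb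
          exact hya h2
      have hβex : ∀ b : Set Γ, ∃ β : Γ, (∃ β, ∀ y ∈ b, y ≤ β) →
          ((∀ y ∈ b, y ≤ β) ∧ ∀ β', (∀ y ∈ b, y ≤ β') → β ≤ β') := by
        intro b
        by_cases h : ∃ β, ∀ y ∈ b, y ≤ β
        · obtain ⟨β, hβ, hmin⟩ := (wellFounded_lt (α := Γ)).has_min {β | ∀ y ∈ b, y ≤ β} h
          exact ⟨β, fun _ => ⟨hβ, fun β' hβ' => not_lt.1 (hmin β' hβ')⟩⟩
        · have hne : Nonempty Γ := by
            by_contra hcon
            rw [not_nonempty_iff] at hcon
            rw [Cardinal.mk_eq_zero] at hκ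
            exact absurd hκ (by simp)
          exact ⟨hne.some, fun h' => absurd h' h⟩
      choose β hβ using hβex
      let s : ℕ → Γ := if h : ∃ s : ℕ → Γ, ∀ x, ∃ n, x ≤ s n then h.choose else fun _ => β ∅
      have hs : (∃ s : ℕ → Γ, ∀ x, ∃ n, x ≤ s n) → ∀ x, ∃ n, x ≤ s n := by
        intro h
        have h1 : s = h.choose := dif_pos h
        rw [h1]
        exact h.choose_spec
      let o : Set Γ → Ordinal.{0} := fun b => Ordinal.type (α := b) (· < ·)
      have ho : ∀ b : Set Γ, b.Countable → o b < (Cardinal.aleph 1).ord := by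
        intro b hb
        rw [Cardinal.lt_ord, Ordinal.card_type, ← Cardinal.countable_iff_lt_aleph_one]
        exact hb
      let V : Type := Unit ⊕ (ℕ ⊕ (ℕ × ℕ))
      let E : Prop → Set ℕ → (ℕ → Set ℕ) → Set V := fun (t : Prop) (A : Set ℕ) (f : ℕ → Set ℕ) =>
        {z | Sum.elim (fun _ => t) (Sum.elim (fun n => n ∈ A) (fun p => p.2 ∈ f p.1)) z}
      have hE : ∀ (t t' : Prop) (A A' : Set ℕ) (f f' : ℕ → Set ℕ), E t A f = E t' A' f' → (t ↔ t') ∧ A = A' ∧ f = f' := by
        intro t t' A A' f f' h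
        refine ⟨?_, ?_, ?_⟩
        · exact Iff.of_eq (congrArg (fun S : Set V => (Sum.inl () : V) ∈ S) h)
        · ext n
          exact Iff.of_eq (congrArg (fun S : Set V => (Sum.inr (Sum.inl n) : V) ∈ S) h)
        · funext m
          ext n
          exact Iff.of_eq (congrArg (fun S : Set V => (Sum.inr (Sum.inr (m, n)) : V) ∈ S) h)
      let c : Set Γ → Set V := fun b =>
        if ∃ β, ∀ y ∈ b, y ≤ β then E True (ι (o b)) (fun _ => F (β b) b)
        else E False ∅ (fun n => F (s n) b)
      refine ⟨fun b => Encodable.encode '' c b, ?_⟩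
      intro a b hb hab hne heq
      have hceq : c a = c b := (Set.image_injective.2 Encodable.encode_injective) heq
      have hex : ∃ y ∈ b, y ∉ a := by
        by_contra h
        push Not at h
        exact hne (Subset.antisymm hab h)
      obtain ⟨y, hyb, hya⟩ := hex
      by_cases hbb : ∃ β, ∀ y ∈ b, y ≤ β
      · have hab' : ∃ β, ∀ y ∈ a, y ≤ β := by
          obtain ⟨γ, hγ⟩ := hbb
          exact ⟨γ, fun y hy => hγ y (hab hy)⟩
        have h1 : c a = E True (ι (o a)) (fun _ => F (β a) a) := if_pos hab'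
        have h2 : c b = E True (ι (o b)) (fun _ => F (β b) b) := if_pos hbb
        rw [h1, h2] at hceq
        obtain ⟨-, h3, h4⟩ := hE True True (ι (o a)) (ι (o b)) (fun _ => F (β a) a) (fun _ => F (β b) b) hceq
        have hle : β a ≤ β b := (hβ a hab').2 _ fun y hy => (hβ b hbb).1 y (hab hy)
        rcases lt_or_eq_of_le hle with hlt' | heq'
        · have h5 : ∃ x ∈ b, β a < x := by
            by_contra hcon
            push Not at hcon
            exact absurd ((hβ b hbb).2 _ hcon) (not_le.2 hlt')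
          obtain ⟨x, hxb, hx⟩ := h5
          have h6 : o a < o b := type_lt hab hxb fun y hy => ((hβ a hab').1 y hy).trans_lt hx
          exact absurd (hι _ _ (ho a (hb.mono hab)) (ho b hb) h3) h6.ne
        · have h5 := congrFun h4 0
          simp only [heq'] at h5
          exact hF (β b) a b hb hab ⟨y, hyb, (hβ b hbb).1 y hyb, hya⟩ h5
      · have h2 : c b = E False ∅ (fun n => F (s n) b) := if_neg hbb
        by_cases hab' : ∃ β, ∀ y ∈ a, y ≤ β
        · have h1 : c a = E True (ι (o a)) (fun _ => F (β a) a) := if_pos hab'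
          rw [h1, h2] at hceq
          obtain ⟨h3, -, -⟩ := hE True False (ι (o a)) ∅ (fun _ => F (β a) a) (fun n => F (s n) b) hceq
          exact h3.1 trivial
        · have h1 : c a = E False ∅ (fun n => F (s n) a) := if_neg hab'
          rw [h1, h2] at hceq
          obtain ⟨-, -, h4⟩ := hE False False ∅ ∅ (fun n => F (s n) a) (fun n => F (s n) b) hceq
          have hsex : ∃ s : ℕ → Γ, ∀ x, ∃ n, x ≤ s n := by
            push Not at hbb
            obtain ⟨x, hx⟩ := hb.exists_eq_range ⟨y, hyb⟩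
            refine ⟨x, fun z => ?_⟩
            obtain ⟨w, hw, hzw⟩ := hbb z
            rw [hx] at hw
            obtain ⟨n, rfl⟩ := hw
            exact ⟨n, hzw.le⟩
          obtain ⟨n, hn⟩ := hs hsex y
          exact hF (s n) a b hb hab ⟨y, hyb, hn, hya⟩ (congrFun h4 n)
  exact main _ Γ rfl

end Pool.Agent.H8.Gul
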