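import Pool.Agent.H8.Gul.LSig
import Pool.Agent.H8.LK.Main

set_option autoImplicit false

open Set Filter Topology

namespace Pool.Agent.H8.Gul

open Pool.Agent.H8.Cor

/-- Gul'ko compacta are Corson compact -/
theorem gulko_corson (X : Type) [TopologicalSpace X] [CompactSpace X] [T2Space X]
    (hX : LSig (univ : Set {g : X → ℝ // Continuous g})) :
    ∃ (Γ : Type) (e : X → Γ → ℝ), Continuous e ∧ Function.Injective e ∧
      ∀ x, (Function.support (e x)).Countable := by
  classical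
  obtain ⟨𝓝s, hNc, hN⟩ := hX
  let F : Type := {g : X → ℝ // Continuous g}
  have hcountN : Countable 𝓝s := hNc.to_subtype
  have hfz : ∀ z : X, Continuous fun w : F => w.1 z := fun z =>
    (continuous_apply z).comp continuous_subtype_val
  let f : F → X → ℝ := fun w => w.1
  have hfc : ∀ w : F, Continuous (f w) := fun w => w.2
  let FR : Finset (X × ℚ × ℚ) → Set F := fun R =>
    {w | ∀ q ∈ R, (q.2.1 : ℝ) ≤ f w q.1 ∧ f w q.1 ≤ (q.2.2 : ℝ)}
  have hw : ∀ a : Finset 𝓝s × Finset (X × ℚ × ℚ), ∃ w : F,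
      (∃ w ∈ FR a.2, ∀ N ∈ a.1, w ∈ N.1) → w ∈ FR a.2 ∧ ∀ N ∈ a.1, w ∈ N.1 := by
    intro a
    by_cases h : ∃ w ∈ FR a.2, ∀ N ∈ a.1, w ∈ N.1
    · obtain ⟨w, h1, h2⟩ := h
      exact ⟨w, fun _ => ⟨h1, h2⟩⟩
    · exact ⟨⟨fun _ => 0, continuous_const⟩, fun h' => absurd h' h⟩
  choose wt hwt using hw
  have hD : ∀ (𝒢 : Finset F), ∃ D : Set X, D.Countable ∧ ∀ (u : X) (n : ℕ),
      ∃ d ∈ D, ∀ w ∈ 𝒢, |f w d - f w u| < 1 / ((n : ℝ) + 1) := by
    intro 𝒢
    let ψ : X → (𝒢 → ℝ) := fun u w => f w.1 u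
    obtain ⟨D0, hD0c, hD0⟩ := TopologicalSpace.exists_countable_dense (range ψ)
    have hpre : ∀ y : range ψ, ∃ f, ψ f = y.1 := fun y => y.2
    choose pre hpre using hpre
    refine ⟨pre '' D0, hD0c.image _, fun u n => ?_⟩
    have hε : (0 : ℝ) < 1 / ((n : ℝ) + 1) := by positivity
    obtain ⟨y, hy, hyd⟩ := Metric.mem_closure_iff.1 (hD0 ⟨ψ u, mem_range_self u⟩) _ hε
    refine ⟨pre y, ⟨y, hy, rfl⟩, fun w hw => ?_⟩
    have h1 : dist (ψ u) (ψ (pre y)) < 1 / ((n : ℝ) + 1) := by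
      rw [hpre y]
      exact hyd
    have h2 := (dist_le_pi_dist (ψ u) (ψ (pre y)) ⟨w, hw⟩).trans_lt h1
    rw [dist_comm, Real.dist_eq] at h2
    exact h2
  choose D hDc hD using hD
  let dom : Finset X → Set (Finset 𝓝s × Finset (X × ℚ × ℚ)) := fun EX =>
    univ ×ˢ {R : Finset (X × ℚ × ℚ) | (R : Set (X × ℚ × ℚ)) ⊆ (EX : Set X) ×ˢ univ}
  have hdom : ∀ EX, (dom EX).Countable := fun EX => countable_univ.prod
      (countable_finsets ((Finset.countable_toSet EX).prod countable_univ))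
  let Φ : Finset (X ⊕ F) → Set (X ⊕ F) := fun E =>
    Sum.inl '' (D E.toRight) ∪ Sum.inr '' (wt '' dom E.toLeft)
  have hΦ : ∀ E, (Φ E).Countable := fun E =>
    ((hDc _).image _).union (((hdom _).image _).image _)
  have hinj : ∀ G, Cl Φ G → ∀ x ∈ closure (Sum.inl ⁻¹' G : Set X),
      ∀ y ∈ closure (Sum.inl ⁻¹' G : Set X),
      (∀ w : F, (Sum.inr w : X ⊕ F) ∈ G → f w x = f w y) → x = y := by
    intro G hG x hx y hy hxy
    by_contra hne
    obtain ⟨g, h0, h1, -⟩ := exists_continuous_zero_one_of_isClosed (isClosed_singleton (x := x))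
      (isClosed_singleton (x := y)) (by rw [Set.disjoint_singleton]; exact hne)
    let w0 : F := ⟨g, g.continuous⟩
    have hsep : f w0 x ≠ f w0 y := by
      have e0 : g x = 0 := h0 rfl
      have e1 : g y = 1 := h1 rfl
      change g x ≠ g y
      rw [e0, e1]
      exact zero_ne_one
    apply hsep
    obtain ⟨K, hK, hwK, -, hKN⟩ := hN w0 (mem_univ _)
    let T : Type := {q : X × ℚ × ℚ // (Sum.inl q.1 : X ⊕ F) ∈ G ∧
      (q.2.1 : ℝ) ≤ f w0 q.1 ∧ f w0 q.1 ≤ (q.2.2 : ℝ)}
    let 𝓝K : Type := {N : 𝓝s // K ⊆ N.1}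
    have hnet : ∀ ι : Finset 𝓝K × Finset T, ∃ w : F, (Sum.inr w : X ⊕ F) ∈ G ∧
        w ∈ FR (ι.2.image Subtype.val) ∧ ∀ N ∈ ι.1, w ∈ N.1.1 := by
      intro ι
      have h1 := hwt (ι.1.image Subtype.val, ι.2.image Subtype.val) ⟨w0, by
        intro q hq
        rw [Finset.mem_image] at hq
        obtain ⟨q, _, rfl⟩ := hq
        exact q.2.2, by
        intro N hN
        rw [Finset.mem_image] at hN
        obtain ⟨N, _, rfl⟩ := hN
        exact N.2 hwK⟩
      refine ⟨wt (ι.1.image Subtype.val, ι.2.image Subtype.val), ?_, h1.1, fun N hN =>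
        h1.2 N.1 (Finset.mem_image_of_mem _ hN)⟩
      let E : Finset (X ⊕ F) := ι.2.image fun q => Sum.inl q.1.1
      have hE : (E : Set (X ⊕ F)) ⊆ G := by
        intro z hz
        rw [Finset.mem_coe, Finset.mem_image] at hz
        obtain ⟨q, _, rfl⟩ := hz
        exact q.2.1
      refine hG E hE (Or.inr ⟨_, ⟨_, ⟨mem_univ _, ?_⟩, rfl⟩, rfl⟩)
      intro q hq
      rw [Finset.mem_coe, Finset.mem_image] at hq
      obtain ⟨q, hq, rfl⟩ := hq
      refine ⟨?_, mem_univ _⟩
      rw [Finset.mem_coe, Finset.mem_toLeft]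
      exact Finset.mem_image.2 ⟨q, hq, rfl⟩
    choose w hwG hwR hws using hnet
    let 𝒱 : Ultrafilter (Finset 𝓝K × Finset T) := Ultrafilter.of atTop
    have h𝒱 : (𝒱 : Filter (Finset 𝓝K × Finset T)) ≤ atTop := Ultrafilter.of_le atTop
    have hU : ∀ U : Set F, IsOpen U → K ⊆ U → ∀ᶠ ι in (𝒱 : Filter (Finset 𝓝K × Finset T)), w ι ∈ U := by
      intro U hU hKU
      obtain ⟨N, hN', hKN', hNU⟩ := hKN U hU hKU
      let N0 : 𝓝K := ⟨⟨N, hN'⟩, hKN'⟩
      apply h𝒱
      filter_upwards [eventually_ge_atTop (({N0} : Finset 𝓝K), (∅ : Finset T))] with ι hι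
      exact hNU (hws ι N0 (hι.1 (Finset.mem_singleton_self N0)))
    have hlimex : ∃ ws ∈ K, Tendsto w 𝒱 (𝓝 ws) := by
      by_contra hcon
      push Not at hcon
      have h2 : ∀ k ∈ K, ∃ O : Set F, IsOpen O ∧ k ∈ O ∧
          ∀ᶠ ι in (𝒱 : Filter (Finset 𝓝K × Finset T)), w ι ∉ O := by
        intro k hk
        have h3 := hcon k hk
        rw [(nhds_basis_opens k).tendsto_right_iff] at h3
        push Not at h3
        obtain ⟨O, ⟨hkO, hO⟩, h3⟩ := h3
        refine ⟨O, hO, hkO, ?_⟩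
        exact h3
      choose! O hOo hkO hOe using h2
      obtain ⟨t, htK, htc⟩ := hK.elim_nhds_subcover O fun k hk => (hOo k hk).mem_nhds (hkO k hk)
      have h4 := hU (⋃ k ∈ t, O k) (isOpen_biUnion fun k hk => hOo k (htK k hk)) htc
      have h5 : ∀ᶠ ι in (𝒱 : Filter (Finset 𝓝K × Finset T)), ∀ k ∈ t, w ι ∉ O k :=
        (Filter.eventually_all_finset t).2 fun k hk => hOe k (htK k hk)
      obtain ⟨ι, h6, h7⟩ := (h4.and h5).exists
      obtain ⟨k, hk, hkw⟩ := mem_iUnion₂.1 h6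
      exact h7 k hk hkw
    obtain ⟨ws, -, hlimF⟩ := hlimex
    have hlz : ∀ z, Tendsto (fun ι => f (w ι) z) 𝒱 (𝓝 (f ws z)) := fun z =>
      ((hfz z).tendsto ws).comp hlimF
    have heq : ∀ z ∈ closure (Sum.inl ⁻¹' G : Set X), f ws z = f w0 z := by
      have hcl : IsClosed {z | f ws z = f w0 z} := isClosed_eq (hfc ws) (hfc w0)
      refine fun z hz => closure_minimal (fun z hz => ?_) hcl hz
      have h5 : Tendsto (fun ι => f (w ι) z) 𝒱 (𝓝 (f w0 z)) := by
        rw [Metric.tendsto_nhds]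
        intro ε hε
        obtain ⟨a, ha1, ha2⟩ := exists_rat_btwn (show f w0 z - ε / 2 < f w0 z by linarith)
        obtain ⟨b, hb1, hb2⟩ := exists_rat_btwn (show f w0 z < f w0 z + ε / 2 by linarith)
        let q : T := ⟨(z, a, b), hz, ha2.le, hb1.le⟩
        apply h𝒱
        filter_upwards [eventually_ge_atTop ((∅ : Finset 𝓝K), ({q} : Finset T))] with ι hι
        have h6 := hwR ι (z, a, b) (Finset.mem_image.2 ⟨q, hι.2 (Finset.mem_singleton_self q), rfl⟩)
        rw [Real.dist_eq, abs_lt]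
        constructor <;> linarith [h6.1, h6.2]
      exact tendsto_nhds_unique (hlz z) h5
    have hxyw : f ws x = f ws y := by
      refine tendsto_nhds_unique (hlz x) ((hlz y).congr fun ι => ?_)
      exact (hxy (w ι) (hwG ι)).symm
    rw [← heq x hx, ← heq y hy, hxyw]
  exact skel (L := X) (Z := X ⊕ F) (Q := F) (fun w x => f w x)
    hfc Φ hΦ Sum.inl (fun w => {Sum.inr w})
    (by
      intro G hG
      have h1 : {w : F | (Sum.inr w : X ⊕ F) ∈ G}.Countable := hG.preimage Sum.inr_injective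
      exact h1.mono fun w hw => hw (by simp))
    (by
      intro G hG x hx y hy hxy
      refine hinj G hG x hx y hy fun w hw => hxy w ?_
      rw [Finset.coe_singleton, singleton_subset_iff]
      exact hw)
    (by
      intro G hG u
      let CG : Set F := {w | (Sum.inr w : X ⊕ F) ∈ G}
      let AG : Set X := Sum.inl ⁻¹' G
      let Ψ : X → (CG → ℝ) := fun z w => f w.1 z
      have hΨ : Continuous Ψ := continuous_pi fun w => hfc w.1
      have hcomp : IsCompact (Ψ '' closure AG) := isClosed_closure.isCompact.image hΨ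
      have hmem : Ψ u ∈ closure (Ψ '' AG) := by
        apply Cor.mem_closure_pi
        intro J n
        obtain ⟨d, hd, hdI⟩ := hD (J.image Subtype.val) u n
        let E : Finset (X ⊕ F) := J.image fun g => Sum.inr g.1
        have hE : (E : Set _) ⊆ G := by
          intro z hz
          rw [Finset.mem_coe, Finset.mem_image] at hz
          obtain ⟨g, _, rfl⟩ := hz
          exact g.2
        have hdG : (Sum.inl d : X ⊕ F) ∈ G := by
          refine hG E hE (Or.inl ⟨d, ?_, rfl⟩)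
          have h1 : E.toRight = J.image Subtype.val := by
            ext g
            simp [E]
          rw [h1]
          exact hd
        exact ⟨Ψ d, ⟨d, hdG, rfl⟩, fun g hg => hdI _ (Finset.mem_image_of_mem _ hg)⟩
      obtain ⟨w, hw, hwu⟩ := closure_minimal (image_mono subset_closure) hcomp.isClosed hmem
      refine ⟨w, hw, fun h hh => ?_⟩
      rw [Finset.coe_singleton, singleton_subset_iff] at hh
      exact congrFun hwu ⟨h, hh⟩)
    (LK.tight_of_inj (fun w x => f w x) hfc Φ hΦ Sum.inl Sum.inl_injective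
      (fun w => Sum.inr w) Sum.inr_injective hinj)

end Pool.Agent.H8.Gul
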