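import Pool.Agent.H8.Gul.Main

set_option autoImplicit false

open Set Filter Topology

namespace Pool.Agent.H8.Gul

theorem gulko_square (X : Type) [TopologicalSpace X] [CompactSpace X] [T2Space X]
    (hX : LSig (univ : Set {g : X → ℝ // Continuous g})) :
    LSig (univ : Set {g : X × X → ℝ // Continuous g}) := by
  have := @gulko_of_maps Bool (X × X) _ _ _ (fun _ => X) (fun _ => inferInstance)
    (fun _ => inferInstance) (fun _ => inferInstance) (fun _ => hX)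
    (fun b p => if b then p.1 else p.2) (by
      intro b
      cases b
      · exact continuous_snd
      · exact continuous_fst) (by
      rintro ⟨x, y⟩ ⟨x', y'⟩ h
      have h1 := h true
      have h2 := h false
      simp only [if_true, Bool.false_eq_true, if_false] at h1 h2
      rw [h1, h2])
  exact this.subtype

theorem of_net {T : Type} [TopologicalSpace T]
    (h : ∃ 𝓕 : Set (Set T), 𝓕.Countable ∧ ∀ z : T, ∃ K : Set T, IsCompact K ∧ z ∈ K ∧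
      ∀ U : Set T, IsOpen U → K ⊆ U → ∃ F ∈ 𝓕, K ⊆ F ∧ F ⊆ U) : LSig (univ : Set T) := by
  obtain ⟨𝓕, hc, h⟩ := h
  refine ⟨𝓕, hc, fun z _ => ?_⟩
  obtain ⟨K, hK, hz, hU⟩ := h z
  exact ⟨K, hK, hz, subset_univ _, hU⟩

theorem to_net {T : Type} [TopologicalSpace T] (h : LSig (univ : Set T)) :
    ∃ 𝓕 : Set (Set T), 𝓕.Countable ∧ ∀ z : T, ∃ K : Set T, IsCompact K ∧ z ∈ K ∧
      ∀ U : Set T, IsOpen U → K ⊆ U → ∃ F ∈ 𝓕, K ⊆ F ∧ F ⊆ U := by
  obtain ⟨𝓕, hc, h⟩ := h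
  refine ⟨𝓕, hc, fun z => ?_⟩
  obtain ⟨K, hK, hz, -, hU⟩ := h z (mem_univ z)
  exact ⟨K, hK, hz, hU⟩

theorem of_seq {T : Type} [TopologicalSpace T]
    (h : ∃ N : ℕ → Set T, ∀ g : T, ∃ C : Set T, IsCompact C ∧ g ∈ C ∧
          ∀ U : Set T, IsOpen U → C ⊆ U → ∃ n : ℕ, C ⊆ N n ∧ N n ⊆ U) :
    LSig (univ : Set T) := by
  obtain ⟨N, h⟩ := h
  apply of_net
  refine ⟨range N, countable_range N, fun z => ?_⟩
  obtain ⟨K, hK, hz, hU⟩ := h z
  refine ⟨K, hK, hz, fun U hUo hKU => ?_⟩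
  obtain ⟨n, hn⟩ := hU U hUo hKU
  exact ⟨N n, mem_range_self n, hn⟩

theorem to_seq {T : Type} [TopologicalSpace T] [Nonempty T] (h : LSig (univ : Set T)) :
    ∃ N : ℕ → Set T, ∀ g : T, ∃ C : Set T, IsCompact C ∧ g ∈ C ∧
          ∀ U : Set T, IsOpen U → C ⊆ U → ∃ n : ℕ, C ⊆ N n ∧ N n ⊆ U := by
  obtain ⟨𝓕, hc, h⟩ := to_net h
  have hne : 𝓕.Nonempty := by
    obtain ⟨K, -, -, hU⟩ := h (Classical.arbitrary T)
    obtain ⟨F, hF, -⟩ := hU univ isOpen_univ (subset_univ K)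
    exact ⟨F, hF⟩
  obtain ⟨N, rfl⟩ := hc.exists_eq_range hne
  refine ⟨N, fun z => ?_⟩
  obtain ⟨K, hK, hz, hU⟩ := h z
  refine ⟨K, hK, hz, fun U hUo hKU => ?_⟩
  obtain ⟨_, ⟨n, rfl⟩, hn⟩ := hU U hUo hKU
  exact ⟨n, hn⟩

theorem split_of {X Y : Type} {A : Set X} {f : X → Y} (h : f ⁻¹' (f '' A) = A) :
    ∀ x ∈ A, ∀ y ∉ A, f x ≠ f y := by
  intro x hx y hy hxy
  apply hy
  rw [← h]
  exact ⟨x, hx, hxy⟩

theorem main1 (X : Type) [TopologicalSpace X] [CompactSpace X] [T2Space X]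
    (h : ∀ A : Set X, ∃ (Y : Type) (_ : TopologicalSpace Y), CompactSpace Y ∧ T2Space Y ∧
        (∃ 𝓕 : Set (Set {g : Y → ℝ // Continuous g}), 𝓕.Countable ∧
          ∀ z : {g : Y → ℝ // Continuous g}, ∃ K : Set {g : Y → ℝ // Continuous g},
            IsCompact K ∧ z ∈ K ∧
            ∀ U : Set {g : Y → ℝ // Continuous g}, IsOpen U → K ⊆ U →
              ∃ F ∈ 𝓕, K ⊆ F ∧ F ⊆ U) ∧
        ∃ f : X → Y, Continuous f ∧ f ⁻¹' (f '' A) = A) :
    ∃ 𝓕 : Set (Set {g : X → ℝ // Continuous g}), 𝓕.Countable ∧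
          ∀ z : {g : X → ℝ // Continuous g}, ∃ K : Set {g : X → ℝ // Continuous g},
            IsCompact K ∧ z ∈ K ∧
            ∀ U : Set {g : X → ℝ // Continuous g}, IsOpen U → K ⊆ U →
              ∃ F ∈ 𝓕, K ⊆ F ∧ F ⊆ U := by
  apply to_net
  apply spl_gulko
  intro A
  obtain ⟨Y, tY, cY, t2Y, hY, f, hf, hfA⟩ := h A
  exact ⟨Y, tY, cY, t2Y, of_net hY, f, hf, split_of hfA⟩

theorem main2 (X : Type) [TopologicalSpace X] [CompactSpace X] [T2Space X]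
    (h : ∀ A : Set X, ∃ (Y : Type) (_ : TopologicalSpace Y), CompactSpace Y ∧ T2Space Y ∧
      (∃ N : ℕ → Set {g : Y → ℝ // Continuous g},
        ∀ g : {g : Y → ℝ // Continuous g}, ∃ C : Set {g : Y → ℝ // Continuous g},
          IsCompact C ∧ g ∈ C ∧
          ∀ U : Set {g : Y → ℝ // Continuous g}, IsOpen U → C ⊆ U →
            ∃ n : ℕ, C ⊆ N n ∧ N n ⊆ U) ∧
      ∃ f : X → Y, Continuous f ∧ f ⁻¹' (f '' A) = A) (A : Set (X × X)) :
    ∃ (Y : Type) (_ : TopologicalSpace Y), CompactSpace Y ∧ T2Space Y ∧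
      (∃ N : ℕ → Set {g : Y → ℝ // Continuous g},
        ∀ g : {g : Y → ℝ // Continuous g}, ∃ C : Set {g : Y → ℝ // Continuous g},
          IsCompact C ∧ g ∈ C ∧
          ∀ U : Set {g : Y → ℝ // Continuous g}, IsOpen U → C ⊆ U →
            ∃ n : ℕ, C ⊆ N n ∧ N n ⊆ U) ∧
      ∃ f : X × X → Y, Continuous f ∧ f ⁻¹' (f '' A) = A := by
  have hX : LSig (univ : Set {g : X → ℝ // Continuous g}) := by
    apply spl_gulko
    intro A
    obtain ⟨Y, tY, cY, t2Y, hY, f, hf, hfA⟩ := h A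
    exact ⟨Y, tY, cY, t2Y, of_seq hY, f, hf, split_of hfA⟩
  have hne : Nonempty {g : X × X → ℝ // Continuous g} := ⟨⟨fun _ => 0, continuous_const⟩⟩
  exact ⟨X × X, inferInstance, inferInstance, inferInstance, to_seq (gulko_square X hX),
    id, continuous_id, by rw [image_id, preimage_id]⟩

end Pool.Agent.H8.Gul
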