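import Pool.Agent.H8.Cor.Hull

set_option autoImplicit false

open Set Filter Topology

namespace Pool.Agent.H8.Gul

/-- countable network modulo a compact cover -/
def LSig {T : Type} [TopologicalSpace T] (S : Set T) : Prop :=
  ∃ 𝓝s : Set (Set T), 𝓝s.Countable ∧ ∀ z ∈ S, ∃ K, IsCompact K ∧ z ∈ K ∧ K ⊆ S ∧
    ∀ U, IsOpen U → K ⊆ U → ∃ N ∈ 𝓝s, K ⊆ N ∧ N ⊆ U

section

variable {T T' : Type} [TopologicalSpace T] [TopologicalSpace T']

theorem LSig.image {S : Set T} (h : LSig S) {g : T → T'} (hg : Continuous g) : LSig (g '' S) := by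
  obtain ⟨𝓝s, hc, h⟩ := h
  refine ⟨(fun N => g '' N) '' 𝓝s, hc.image _, ?_⟩
  rintro _ ⟨z, hz, rfl⟩
  obtain ⟨K, hK, hzK, hKS, hN⟩ := h z hz
  refine ⟨g '' K, hK.image hg, ⟨z, hzK, rfl⟩, image_mono hKS, fun U hU hKU => ?_⟩
  obtain ⟨N, hN, hKN, hNU⟩ := hN (g ⁻¹' U) (hU.preimage hg) (image_subset_iff.1 hKU)
  exact ⟨g '' N, ⟨N, hN, rfl⟩, image_mono hKN, image_subset_iff.2 hNU⟩

theorem LSig.iUnion {ι : Type} [Countable ι] {S : ι → Set T} (h : ∀ i, LSig (S i)) :
    LSig (⋃ i, S i) := by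
  choose 𝓝s hc h using h
  refine ⟨⋃ i, 𝓝s i, countable_iUnion hc, ?_⟩
  intro z hz
  obtain ⟨i, hi⟩ := mem_iUnion.1 hz
  obtain ⟨K, hK, hzK, hKS, hN⟩ := h i z hi
  refine ⟨K, hK, hzK, hKS.trans (subset_iUnion S i), fun U hU hKU => ?_⟩
  obtain ⟨N, hN, hKN, hNU⟩ := hN U hU hKU
  exact ⟨N, mem_iUnion.2 ⟨i, hN⟩, hKN, hNU⟩

theorem LSig.union {S S' : Set T} (h : LSig S) (h' : LSig S') : LSig (S ∪ S') := by
  rw [union_eq_iUnion]
  exact LSig.iUnion fun b => by cases b <;> assumption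

theorem LSig.of_compact {S : Set T} (h : IsCompact S) : LSig S :=
  ⟨{S}, countable_singleton _, fun _ hz => ⟨S, h, hz, Subset.rfl, fun _ _ hU =>
    ⟨S, rfl, Subset.rfl, hU⟩⟩⟩

theorem LSig.prod {S : Set T} {S' : Set T'} (h : LSig S) (h' : LSig S') : LSig (S ×ˢ S') := by
  obtain ⟨𝓝s, hc, h⟩ := h
  obtain ⟨𝓝s', hc', h'⟩ := h'
  refine ⟨image2 (fun N N' => N ×ˢ N') 𝓝s 𝓝s', hc.image2 hc' _, ?_⟩
  rintro ⟨a, b⟩ ⟨ha, hb⟩
  obtain ⟨K, hK, hzK, hKS, hN⟩ := h a ha
  obtain ⟨K', hK', hzK', hKS', hN'⟩ := h' b hb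
  refine ⟨K ×ˢ K', hK.prod hK', ⟨hzK, hzK'⟩, prod_mono hKS hKS', fun U hU hKU => ?_⟩
  obtain ⟨u, v, hu, hv, hKu, hKv, huv⟩ := generalized_tube_lemma hK hK' hU hKU
  obtain ⟨N, hN, hKN, hNu⟩ := hN u hu hKu
  obtain ⟨N', hN', hKN', hNv⟩ := hN' v hv hKv
  exact ⟨N ×ˢ N', ⟨N, hN, N', hN', rfl⟩, prod_mono hKN hKN', (prod_mono hNu hNv).trans huv⟩

theorem LSig.iInter [T2Space T] {S : ℕ → Set T} (h : ∀ i, LSig (S i)) : LSig (⋂ i, S i) := by
  choose 𝓝s hc h using h
  let 𝓜 : ℕ → Set (Set T) := fun n => Nat.rec (𝓝s 0) (fun n M => image2 (fun A B => A ∩ B) M (𝓝s (n + 1))) n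
  have h𝓜0 : 𝓜 0 = 𝓝s 0 := rfl
  have h𝓜s : ∀ n, 𝓜 (n + 1) = image2 (fun A B => A ∩ B) (𝓜 n) (𝓝s (n + 1)) := fun n => rfl
  have h𝓜c : ∀ n, (𝓜 n).Countable := by
    intro n
    induction n with
    | zero => exact hc 0
    | succ n ih =>
      rw [h𝓜s]
      exact ih.image2 (hc _) _
  refine ⟨⋃ n, 𝓜 n, countable_iUnion h𝓜c, ?_⟩
  intro z hz
  rw [mem_iInter] at hz
  choose K hK hzK hKS hN using fun i => h i z (hz i)
  let V : ℕ → Set T := fun n => ⋂ i ∈ Finset.range (n + 1), K i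
  have hV0 : V 0 = K 0 := by simp [V]
  have hVs : ∀ n, V (n + 1) = V n ∩ K (n + 1) := by
    intro n
    ext x
    simp only [V, mem_iInter, mem_inter_iff, Finset.mem_range]
    constructor
    · intro hx
      exact ⟨fun i hi => hx i (by omega), hx _ (by omega)⟩
    · rintro ⟨h1, h2⟩ i hi
      rcases Nat.lt_succ_iff_lt_or_eq.1 hi with h3 | rfl
      · exact h1 i h3
      · exact h2
  have hVc : ∀ n, IsCompact (V n) := by
    intro n
    induction n with
    | zero =>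
      rw [hV0]
      exact hK 0
    | succ n ih =>
      rw [hVs]
      exact ih.inter (hK _)
  have hVi : ⋂ n, V n = ⋂ n, K n := by
    ext x
    simp only [V, mem_iInter, Finset.mem_range]
    exact ⟨fun h n => h n n (Nat.lt_succ_self n), fun h n i _ => h i⟩
  have hVd : Directed (· ⊇ ·) V := by
    have hanti : Antitone V := antitone_nat_of_succ_le fun n => by
      rw [hVs]
      exact inter_subset_left
    exact hanti.directed_ge
  have hnet : ∀ n, ∀ U, IsOpen U → V n ⊆ U → ∃ N ∈ 𝓜 n, V n ⊆ N ∧ N ⊆ U := by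
    intro n
    induction n with
    | zero =>
      intro U hU hVU
      rw [hV0] at hVU ⊢
      exact hN 0 U hU hVU
    | succ n ih =>
      intro U hU hVU
      rw [hVs] at hVU ⊢
      have hdis : Disjoint (V n \ U) (K (n + 1)) := by
        rw [Set.disjoint_left]
        intro x hx hxK
        exact hx.2 (hVU ⟨hx.1, hxK⟩)
      obtain ⟨O1, O2, hO1, hO2, h1, h2, h12⟩ :=
        SeparatedNhds.of_isCompact_isCompact ((hVc n).diff hU) (hK (n + 1)) hdis
      obtain ⟨M, hM, hVM, hMU⟩ := ih (U ∪ O1) (hU.union hO1) (by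
        intro x hx
        by_cases hxU : x ∈ U
        · exact Or.inl hxU
        · exact Or.inr (h1 ⟨hx, hxU⟩))
      obtain ⟨N, hN', hKN, hNO⟩ := hN (n + 1) O2 hO2 h2
      refine ⟨M ∩ N, ?_, inter_subset_inter hVM hKN, ?_⟩
      · rw [h𝓜s]
        exact ⟨M, hM, N, hN', rfl⟩
      · rintro x ⟨hxM, hxN⟩
        rcases hMU hxM with h | h
        · exact h
        · exact absurd (hNO hxN) (Set.disjoint_left.1 h12 h)
  refine ⟨⋂ n, K n, ?_, mem_iInter.2 hzK, iInter_mono hKS, fun U hU hKU => ?_⟩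
  · exact (hK 0).of_isClosed_subset (isClosed_iInter fun n => (hK n).isClosed) (iInter_subset _ 0)
  · obtain ⟨n, hn⟩ := exists_subset_nhds_of_isCompact' hVd hVc (fun n => (hVc n).isClosed)
      (U := U) (by
        intro x hx
        rw [hVi] at hx
        exact hU.mem_nhds (hKU hx))
    obtain ⟨N, hN', hVN, hNU⟩ := hnet n U hU hn
    refine ⟨N, mem_iUnion.2 ⟨n, hN'⟩, ?_, hNU⟩
    rw [← hVi]
    exact (iInter_subset V n).trans hVN

theorem LSig.subtype {S : Set T} (h : LSig S) : LSig (univ : Set S) := by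
  obtain ⟨𝓝s, hc, h⟩ := h
  refine ⟨(fun N => Subtype.val ⁻¹' N) '' 𝓝s, hc.image _, ?_⟩
  rintro ⟨z, hz⟩ -
  obtain ⟨K, hK, hzK, hKS, hN⟩ := h z hz
  refine ⟨Subtype.val ⁻¹' K, ?_, hzK, subset_univ _, fun U hU hKU => ?_⟩
  · rw [Subtype.isCompact_iff, Subtype.image_preimage_coe, inter_eq_self_of_subset_right hKS]
    exact hK
  · obtain ⟨O, hO, rfl⟩ := isOpen_induced_iff.1 hU
    have hKO : K ⊆ O := fun x hx => hKU (show (⟨x, hKS hx⟩ : S) ∈ Subtype.val ⁻¹' K from hx)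
    obtain ⟨N, hN, hKN, hNO⟩ := hN O hO hKO
    exact ⟨_, ⟨N, hN, rfl⟩, preimage_mono hKN, preimage_mono hNO⟩

end

/-- the class of Gul'ko compacta: countable products and closed subspaces -/
theorem gulko_of_maps {ι X : Type} [Countable ι] [TopologicalSpace X] [CompactSpace X] (Y : ι → Type)
    [∀ n, TopologicalSpace (Y n)] [∀ n, CompactSpace (Y n)] [∀ n, T2Space (Y n)]
    (hY : ∀ n, LSig (univ : Set {g : Y n → ℝ // Continuous g}))
    (f : ∀ n, X → Y n) (hf : ∀ n, Continuous (f n)) (hsep : ∀ x y, (∀ n, f n x = f n y) → x = y) :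
    LSig {h : X → ℝ | Continuous h} := by
  classical
  let W0 : Set (X → ℝ) := (⋃ n, (fun (g : {g : Y n → ℝ // Continuous g}) (x : X) => g.1 (f n x)) '' univ) ∪
    (fun (c : ℝ) (_ : X) => c) '' (⋃ n : ℕ, Icc (-(n : ℝ)) n)
  have hW0 : LSig W0 := by
    refine LSig.union (LSig.iUnion fun n => (hY n).image ?_) (LSig.image (LSig.iUnion fun n =>
      LSig.of_compact isCompact_Icc) ?_)
    · exact continuous_pi fun x => (continuous_apply (f n x)).comp continuous_subtype_val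
    · exact continuous_pi fun _ => continuous_id
  let W : ℕ → Set (X → ℝ) := fun k => Nat.rec W0 (fun _ V =>
    V ∪ ((fun p : (X → ℝ) × (X → ℝ) => p.1 + p.2) '' (V ×ˢ V) ∪
      (fun p : (X → ℝ) × (X → ℝ) => p.1 * p.2) '' (V ×ˢ V))) k
  have hWs : ∀ k, W (k + 1) = W k ∪ ((fun p : (X → ℝ) × (X → ℝ) => p.1 + p.2) '' (W k ×ˢ W k) ∪
      (fun p : (X → ℝ) × (X → ℝ) => p.1 * p.2) '' (W k ×ˢ W k)) := fun k => rfl
  have hW : ∀ k, LSig (W k) := by
    intro k
    induction k with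
    | zero => exact hW0
    | succ k ih =>
      rw [hWs]
      refine ih.union (LSig.union ((ih.prod ih).image ?_) ((ih.prod ih).image ?_))
      · exact continuous_fst.add continuous_snd
      · exact continuous_fst.mul continuous_snd
  have hWm : Monotone W := monotone_nat_of_le_succ fun k => by
    rw [hWs]
    exact subset_union_left
  have hWc : ∀ k, ∀ h ∈ W k, Continuous h := by
    intro k
    induction k with
    | zero =>
      rintro h (h1 | ⟨c, _, rfl⟩)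
      · obtain ⟨n, g, _, rfl⟩ := mem_iUnion.1 h1
        exact g.2.comp (hf n)
      · exact continuous_const
    | succ k ih =>
      intro h hh
      rw [hWs] at hh
      rcases hh with h1 | ⟨p, hp, rfl⟩ | ⟨p, hp, rfl⟩
      · exact ih h h1
      · exact (ih _ hp.1).add (ih _ hp.2)
      · exact (ih _ hp.1).mul (ih _ hp.2)
  let A : Subalgebra ℝ C(X, ℝ) :=
    { carrier := {h | ∃ k, (h : X → ℝ) ∈ W k}
      mul_mem' := by
        rintro a b ⟨k, hk⟩ ⟨l, hl⟩
        refine ⟨max k l + 1, ?_⟩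
        rw [hWs]
        exact Or.inr (Or.inr ⟨(a, b), ⟨hWm (le_max_left _ _) hk, hWm (le_max_right _ _) hl⟩, rfl⟩)
      add_mem' := by
        rintro a b ⟨k, hk⟩ ⟨l, hl⟩
        refine ⟨max k l + 1, ?_⟩
        rw [hWs]
        exact Or.inr (Or.inl ⟨(a, b), ⟨hWm (le_max_left _ _) hk, hWm (le_max_right _ _) hl⟩, rfl⟩)
      algebraMap_mem' := by
        intro c
        refine ⟨0, Or.inr ⟨c, ?_, rfl⟩⟩
        obtain ⟨n, hn⟩ := exists_nat_ge |c|
        exact mem_iUnion.2 ⟨n, (abs_le.1 hn).1, (abs_le.1 hn).2⟩ }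
  have hAsep : A.SeparatesPoints := by
    intro x y hxy
    have h1 : ∃ n, f n x ≠ f n y := by
      by_contra h
      push Not at h
      exact hxy (hsep x y h)
    obtain ⟨n, hn⟩ := h1
    obtain ⟨g, h0, h1, -⟩ := exists_continuous_zero_one_of_isClosed
      (isClosed_singleton (x := f n x)) (isClosed_singleton (x := f n y))
      (by rw [Set.disjoint_singleton]; exact hn)
    refine ⟨fun z => g (f n z), ⟨⟨fun z => g (f n z), g.continuous.comp (hf n)⟩, ⟨0, Or.inl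
      (mem_iUnion.2 ⟨n, ⟨g, g.continuous⟩, mem_univ _, rfl⟩)⟩, rfl⟩, ?_⟩
    have e0 : g (f n x) = 0 := h0 rfl
    have e1 : g (f n y) = 1 := h1 rfl
    change g (f n x) ≠ g (f n y)
    rw [e0, e1]
    exact zero_ne_one
  have hU : LSig (⋃ k, W k) := LSig.iUnion hW
  have hS : ∀ m : ℕ, LSig ((fun p : (X → ℝ) × (X → ℝ) => p.1 + p.2) ''
      ((⋃ k, W k) ×ˢ (univ.pi fun _ : X => Icc (-(1 / ((m : ℝ) + 1))) (1 / ((m : ℝ) + 1))))) := by
    intro m
    refine (hU.prod (LSig.of_compact (isCompact_univ_pi fun _ => isCompact_Icc))).image ?_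
    exact continuous_fst.add continuous_snd
  have hEq : {h : X → ℝ | Continuous h} = ⋂ m : ℕ, (fun p : (X → ℝ) × (X → ℝ) => p.1 + p.2) ''
      ((⋃ k, W k) ×ˢ (univ.pi fun _ : X => Icc (-(1 / ((m : ℝ) + 1))) (1 / ((m : ℝ) + 1)))) := by
    apply Subset.antisymm
    · intro h hh
      rw [mem_iInter]
      intro m
      have hε : (0 : ℝ) < 1 / ((m : ℝ) + 1) := by positivity
      obtain ⟨g, hg⟩ := ContinuousMap.exists_mem_subalgebra_near_continuous_of_separatesPoints A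
        hAsep h hh _ hε
      obtain ⟨k, hk⟩ := g.2
      refine ⟨((g.1 : X → ℝ), fun x => h x - g.1 x), ⟨mem_iUnion.2 ⟨k, hk⟩, ?_⟩, ?_⟩
      · intro x _
        have := hg x
        rw [Real.norm_eq_abs, abs_lt] at this
        constructor <;> linarith [this.1, this.2]
      · funext x
        simp
    · intro h hh
      rw [mem_iInter] at hh
      have hlim : ∀ ε > 0, ∃ g : X → ℝ, Continuous g ∧ ∀ x, |h x - g x| ≤ ε := by
        intro ε hε
        obtain ⟨m, hm⟩ := exists_nat_one_div_lt hε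
        obtain ⟨⟨g, b⟩, ⟨hg, hb⟩, hgb⟩ := hh m
        obtain ⟨k, hk⟩ := mem_iUnion.1 hg
        refine ⟨g, hWc k g hk, fun x => ?_⟩
        have h1 : h x = g x + b x := by rw [← hgb]; rfl
        have h2 := hb x (mem_univ x)
        rw [h1, add_sub_cancel_left]
        exact (abs_le.2 ⟨h2.1, h2.2⟩).trans hm.le
      change Continuous h
      rw [continuous_iff_continuousAt]
      intro x
      rw [Metric.continuousAt_iff'] 
      intro ε hε
      obtain ⟨g, hg, hgh⟩ := hlim (ε / 4) (by positivity)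
      have h3 := Metric.continuousAt_iff'.1 (hg.continuousAt (x := x)) (ε / 4) (by positivity)
      filter_upwards [h3] with y hy
      rw [Real.dist_eq] at hy ⊢
      have h4 := hgh x
      have h5 := hgh y
      rw [abs_le] at h4 h5
      rw [abs_lt] at hy ⊢
      constructor <;> linarith [h4.1, h4.2, h5.1, h5.2, hy.1, hy.2]
  rw [hEq]
  exact LSig.iInter hS

end Pool.Agent.H8.Gul
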