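import Pool.Agent.H8.Gul.Corson
import Pool.Agent.H8.Gul.Anti
import Pool.Agent.H8.Spl.Iter

set_option autoImplicit false

open Set Filter Topology

namespace Pool.Agent.H8.Gul

open Pool.Agent.H8.Cor Pool.Agent.H8.Spl

section

variable {X : Type} [TopologicalSpace X] [CompactSpace X]

/-- continuous functions depend on countably many coordinates -/
theorem count_dep {Γ : Type} (e : X → Γ → ℝ) (he : Continuous e) (hi : Function.Injective e)
    (h : X → ℝ) (hh : Continuous h) : ∃ S : Set Γ, S.Countable ∧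
      ∀ u v, (∀ γ ∈ S, e u γ = e v γ) → h u = h v := by
  have hcont : Continuous fun p : X × X => |h p.1 - h p.2| :=
    continuous_abs.comp ((hh.comp continuous_fst).sub (hh.comp continuous_snd))
  have h1 : ∀ n : ℕ, ∃ t : Finset Γ, {p : X × X | 1 / ((n : ℝ) + 1) ≤ |h p.1 - h p.2|} ⊆
      ⋃ γ ∈ t, {p : X × X | e p.1 γ ≠ e p.2 γ} := by
    intro n
    apply IsCompact.elim_finite_subcover
    · exact (isClosed_le continuous_const hcont).isCompact
    · intro γ
      exact isOpen_ne_fun ((continuous_apply γ).comp (he.comp continuous_fst))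
        ((continuous_apply γ).comp (he.comp continuous_snd))
    · intro p hp
      by_contra hcon
      rw [mem_iUnion] at hcon
      push Not at hcon
      have h2 : p.1 = p.2 := hi (funext fun γ => by
        by_contra hne
        exact hcon γ hne)
      have hp' : 1 / ((n : ℝ) + 1) ≤ |h p.1 - h p.2| := hp
      rw [h2, sub_self, abs_zero] at hp'
      have : (0 : ℝ) < 1 / ((n : ℝ) + 1) := by positivity
      linarith
  choose t ht using h1
  refine ⟨⋃ n, (t n : Set Γ), countable_iUnion fun n => (t n).countable_toSet, ?_⟩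
  intro u v huv
  by_contra hne
  obtain ⟨n, hn⟩ := exists_nat_one_div_lt (abs_pos.2 (sub_ne_zero.2 hne))
  have h3 := ht n (show (u, v) ∈ {p : X × X | 1 / ((n : ℝ) + 1) ≤ |h p.1 - h p.2|} from hn.le)
  obtain ⟨γ, hγ, hγ'⟩ := mem_iUnion₂.1 h3
  exact hγ' (huv γ (mem_iUnion.2 ⟨n, hγ⟩))

/-- fibres are small -/
theorem small_fibre {Γ Δ : Type} (e : X → Γ → ℝ) (he : Continuous e) (hi : Function.Injective e)
    (hs : ∀ x, (Function.support (e x)).Countable) (F : X → Δ → ℝ) (hF : Continuous F)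
    (hFs : ∀ x, (Function.support (F x)).Countable) (c : Set Γ → Set ℕ)
    (hc : ∀ a b : Set Γ, b.Countable → a ⊆ b → a ≠ b → c a ≠ c b)
    (hFc : ∀ x y, F x = F y → c (Function.support (e x)) = c (Function.support (e y))) (y0 : X) :
    Cardinal.mk {x | F x = F y0} ≤ Cardinal.continuum := by
  classical
  have hD : ∀ (E : Finset Γ), ∃ D : Set X, D.Countable ∧ ∀ (u : X) (n : ℕ),
      ∃ d ∈ D, ∀ γ ∈ E, |e d γ - e u γ| < 1 / ((n : ℝ) + 1) := by
    intro E
    let ψ : X → (E → ℝ) := fun u γ => e u γ.1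
    obtain ⟨D0, hD0c, hD0⟩ := TopologicalSpace.exists_countable_dense (range ψ)
    have hpre : ∀ y : range ψ, ∃ f, ψ f = y.1 := fun y => y.2
    choose pre hpre using hpre
    refine ⟨pre '' D0, hD0c.image _, fun u n => ?_⟩
    have hε : (0 : ℝ) < 1 / ((n : ℝ) + 1) := by positivity
    obtain ⟨y, hy, hyd⟩ := Metric.mem_closure_iff.1 (hD0 ⟨ψ u, mem_range_self u⟩) _ hε
    refine ⟨pre y, ⟨y, hy, rfl⟩, fun w hw => ?_⟩
    have h1 : dist (ψ u) (ψ (pre y)) < 1 / ((n : ℝ) + 1) := by
      rw [hpre y]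
      exact hyd
    have h2 := (dist_le_pi_dist (ψ u) (ψ (pre y)) ⟨w, hw⟩).trans_lt h1
    rw [dist_comm, Real.dist_eq] at h2
    exact h2
  choose D hDc hD using hD
  choose S hSc hS using fun δ : Δ => count_dep e he hi (fun x => F x δ)
    ((continuous_apply δ).comp hF)
  let Φ : Finset (X ⊕ (Γ ⊕ Δ)) → Set (X ⊕ (Γ ⊕ Δ)) := fun E =>
    (Sum.inr '' (Sum.inl '' (⋃ x ∈ E.toLeft, Function.support (e x))) ∪
      Sum.inr '' (Sum.inr '' (⋃ x ∈ E.toLeft, Function.support (F x)))) ∪
    (Sum.inl '' D E.toRight.toLeft ∪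
      Sum.inr '' (Sum.inl '' (⋃ δ ∈ E.toRight.toRight, S δ)))
  have hΦ : ∀ E, (Φ E).Countable := by
    intro E
    refine ((((Countable.biUnion (Finset.countable_toSet _) fun x _ => hs x).image _).image _).union
      (((Countable.biUnion (Finset.countable_toSet _) fun x _ => hFs x).image _).image _)).union
      (((hDc _).image _).union
      (((Countable.biUnion (Finset.countable_toSet _) fun x _ => hSc x).image _).image _))
  let G := hull Φ {Sum.inl y0}
  have hGc : G.Countable := hull_countable Φ hΦ (countable_singleton _)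
  have hG : Cl Φ G := hull_cl Φ _
  let XG : Set X := {x | (Sum.inl x : X ⊕ (Γ ⊕ Δ)) ∈ G}
  let ΓG : Set Γ := {γ | (Sum.inr (Sum.inl γ) : X ⊕ (Γ ⊕ Δ)) ∈ G}
  let ΔG : Set Δ := {δ | (Sum.inr (Sum.inr δ) : X ⊕ (Γ ⊕ Δ)) ∈ G}
  have hy0 : y0 ∈ XG := subset_hull Φ _ rfl
  have hΓGc : ΓG.Countable := hGc.preimage (Sum.inr_injective.comp Sum.inl_injective)
  have hX1 : ∀ x ∈ XG, ∀ γ, e x γ ≠ 0 → γ ∈ ΓG := by
    intro x hx γ hγ
    have h3 : (({Sum.inl x} : Finset (X ⊕ (Γ ⊕ Δ))) : Set _) ⊆ G := by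
      rw [Finset.coe_singleton, singleton_subset_iff]
      exact hx
    refine hG _ h3 (Or.inl (Or.inl ⟨_, ⟨γ, ?_, rfl⟩, rfl⟩))
    simp only [mem_iUnion]
    exact ⟨x, by simp, hγ⟩
  have hX2 : ∀ x ∈ XG, ∀ δ, F x δ ≠ 0 → δ ∈ ΔG := by
    intro x hx γ hγ
    have h3 : (({Sum.inl x} : Finset (X ⊕ (Γ ⊕ Δ))) : Set _) ⊆ G := by
      rw [Finset.coe_singleton, singleton_subset_iff]
      exact hx
    refine hG _ h3 (Or.inl (Or.inr ⟨_, ⟨γ, ?_, rfl⟩, rfl⟩))
    simp only [mem_iUnion]
    exact ⟨x, by simp, hγ⟩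
  have hX3 : ∀ δ ∈ ΔG, S δ ⊆ ΓG := by
    intro δ hδ γ hγ
    have h3 : (({Sum.inr (Sum.inr δ)} : Finset (X ⊕ (Γ ⊕ Δ))) : Set _) ⊆ G := by
      rw [Finset.coe_singleton, singleton_subset_iff]
      exact hδ
    refine hG _ h3 (Or.inr (Or.inr ⟨_, ⟨γ, ?_, rfl⟩, rfl⟩))
    simp only [mem_iUnion]
    exact ⟨δ, by simp, hγ⟩
  have hz1 : ∀ γ ∉ ΓG, ∀ w ∈ closure XG, e w γ = 0 := by
    intro γ hγ w hw
    have hcl : IsClosed {w : X | e w γ = 0} :=
      isClosed_eq ((continuous_apply γ).comp he) continuous_const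
    refine closure_minimal (fun w hw => ?_) hcl hw
    by_contra hne
    exact hγ (hX1 w hw γ hne)
  have hz2 : ∀ δ ∉ ΔG, ∀ w ∈ closure XG, F w δ = 0 := by
    intro γ hγ w hw
    have hcl : IsClosed {w : X | F w γ = 0} :=
      isClosed_eq ((continuous_apply γ).comp hF) continuous_const
    refine closure_minimal (fun w hw => ?_) hcl hw
    by_contra hne
    exact hγ (hX2 w hw γ hne)
  have hkey : ∀ x, F x = F y0 → ∀ γ ∉ ΓG, e x γ = 0 := by
    intro x hx
    -- the restriction of `x`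
    have hw : ∃ w ∈ closure XG, ∀ γ ∈ ΓG, e w γ = e x γ := by
      let Ψ : X → (ΓG → ℝ) := fun z γ => e z γ.1
      have hΨ : Continuous Ψ := continuous_pi fun γ => (continuous_apply γ.1).comp he
      have hcomp : IsCompact (Ψ '' closure XG) := isClosed_closure.isCompact.image hΨ
      have hmem : Ψ x ∈ closure (Ψ '' XG) := by
        apply Cor.mem_closure_pi
        intro J n
        obtain ⟨d, hd, hdI⟩ := hD (J.image Subtype.val) x n
        let E : Finset (X ⊕ (Γ ⊕ Δ)) := J.image fun γ => Sum.inr (Sum.inl γ.1)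
        have hE : (E : Set _) ⊆ G := by
          intro z hz
          rw [Finset.mem_coe, Finset.mem_image] at hz
          obtain ⟨g, _, rfl⟩ := hz
          exact g.2
        have hdG : (Sum.inl d : X ⊕ (Γ ⊕ Δ)) ∈ G := by
          refine hG E hE (Or.inr (Or.inl ⟨d, ?_, rfl⟩))
          have h1 : E.toRight.toLeft = J.image Subtype.val := by
            ext g
            simp [E]
          rw [h1]
          exact hd
        exact ⟨Ψ d, ⟨d, hdG, rfl⟩, fun g hg => hdI _ (Finset.mem_image_of_mem _ hg)⟩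
      obtain ⟨w, hw, hwu⟩ := closure_minimal (image_mono subset_closure) hcomp.isClosed hmem
      exact ⟨w, hw, fun γ hγ => congrFun hwu ⟨γ, hγ⟩⟩
    obtain ⟨w, hwc, hwx⟩ := hw
    have hFw : F w = F x := by
      funext δ
      by_cases hδ : δ ∈ ΔG
      · exact hS δ w x fun γ hγ => hwx γ (hX3 δ hδ hγ)
      · rw [hz2 δ hδ w hwc, hx, hz2 δ hδ y0 (subset_closure hy0)]
    have hsub : Function.support (e w) ⊆ Function.support (e x) := by
      intro γ hγ
      by_cases hγG : γ ∈ ΓG
      · rw [Function.mem_support, ← hwx γ hγG]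
        exact hγ
      · exact absurd (hz1 γ hγG w hwc) hγ
    have hsupp : Function.support (e w) = Function.support (e x) := by
      by_contra hne
      exact hc _ _ (hs x) hsub hne (hFc w x hFw)
    intro γ hγ
    by_contra hne
    have h5 : γ ∈ Function.support (e w) := by
      rw [hsupp]
      exact hne
    exact h5 (hz1 γ hγ w hwc)
  have hcount := hΓGc.to_subtype
  have hinj : Function.Injective (fun (x : {x | F x = F y0}) (γ : ΓG) => e x.1 γ.1) := by
    intro x x' h
    apply Subtype.ext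
    apply hi
    funext γ
    by_cases hγ : γ ∈ ΓG
    · exact congrFun h ⟨γ, hγ⟩
    · rw [hkey x.1 x.2 γ hγ, hkey x'.1 x'.2 γ hγ]
  refine (Cardinal.mk_le_of_injective hinj).trans ?_
  rw [Cardinal.mk_arrow]
  simp only [Cardinal.lift_id, Cardinal.mk_real]
  refine (Cardinal.power_le_power_left (Cardinal.continuum_pos.ne') 
    (Cardinal.mk_le_aleph0 (α := ΓG))).trans ?_
  rw [Cardinal.continuum_power_aleph0]

end

theorem spl_gulko (X : Type) [TopologicalSpace X] [CompactSpace X] [T2Space X]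
    (h : ∀ A : Set X, ∃ (Y : Type) (_ : TopologicalSpace Y), CompactSpace Y ∧ T2Space Y ∧
      LSig (univ : Set {g : Y → ℝ // Continuous g}) ∧
      ∃ f : X → Y, Continuous f ∧ ∀ x ∈ A, ∀ y ∉ A, f x ≠ f y) :
    LSig (univ : Set {g : X → ℝ // Continuous g}) := by
  classical
  have hX : Spl X := by
    intro A
    obtain ⟨Y, _, _, _, hY, f, hf, hfA⟩ := h A
    obtain ⟨Γ, e, he, hi, hs⟩ := gulko_corson Y hY
    exact ⟨Γ, fun x => e (f x), he.comp hf, fun x => hs _, fun x hx y hy hxy =>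
      hfA x hx y hy (hi hxy)⟩
  obtain ⟨Γ, e, he, hi, hs⟩ := spl_corson hX
  obtain ⟨c, hc⟩ := anti Γ
  choose Y tY cY t2Y hY f hf hfA using fun n : ℕ => h {x | n ∈ c (Function.support (e x))}
  choose Δ d hd hdi hds using fun n => gulko_corson (Y n) (hY n)
  let F : X → (Σ n, Δ n) → ℝ := fun x p => d p.1 (f p.1 x) p.2
  have hF : Continuous F := continuous_pi fun p =>
    (continuous_apply p.2).comp ((hd p.1).comp (hf p.1))
  have hFs : ∀ x, (Function.support (F x)).Countable := by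
    intro x
    refine Countable.mono ?_ (countable_iUnion fun n => (hds n (f n x)).image (Sigma.mk n))
    rintro ⟨n, γ⟩ h
    exact mem_iUnion.2 ⟨n, γ, h, rfl⟩
  have hFf : ∀ x y, F x = F y → ∀ n, f n x = f n y := by
    intro x y hxy n
    apply hdi n
    funext γ
    exact congrFun hxy ⟨n, γ⟩
  have hFc : ∀ x y, F x = F y → c (Function.support (e x)) = c (Function.support (e y)) := by
    intro x y hxy
    ext n
    by_cases hx : n ∈ c (Function.support (e x))
    · by_cases hy : n ∈ c (Function.support (e y))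
      · exact ⟨fun _ => hy, fun _ => hx⟩
      · exact absurd (hFf x y hxy n) (hfA n x hx y hy)
    · by_cases hy : n ∈ c (Function.support (e y))
      · exact absurd (hFf x y hxy n).symm (hfA n y hy x hx)
      · exact ⟨fun h => absurd h hx, fun h => absurd h hy⟩
  have hsmall : ∀ v : (Σ n, Δ n) → ℝ, Cardinal.mk {x | F x = v} ≤ Cardinal.mk (Set ℕ) := by
    intro v
    rw [Cardinal.mk_set_nat]
    by_cases hv : ∃ y, F y = v
    · obtain ⟨y, rfl⟩ := hv
      exact small_fibre e he hi hs F hF hFs c hc hFc y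
    · have : {x | F x = v} = ∅ := by
        ext x
        simp only [mem_ofPred_eq, mem_empty_iff_false, iff_false]
        exact fun h => hv ⟨x, h⟩
      rw [this]
      simp
  have hj : ∀ v, Nonempty ({x | F x = v} ↪ Set ℕ) := fun v => (Cardinal.le_def _ _).1 (hsmall v)
  let j : ∀ v, {x | F x = v} ↪ Set ℕ := fun v => (hj v).some
  let κ : X → Set ℕ := fun x => j (F x) ⟨x, rfl⟩
  have hκ : ∀ x y, F x = F y → κ x = κ y → x = y := by
    intro x y hxy hk
    have : ∀ v (hx : F x = v) (hy : F y = v), j v ⟨x, hx⟩ = j v ⟨y, hy⟩ → x = y := by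
      intro v hx hy h
      exact congrArg Subtype.val ((j v).injective h)
    apply this (F x) rfl hxy.symm
    have h2 : ∀ v (hy : F y = v), j (F y) ⟨y, rfl⟩ = j v ⟨y, hy⟩ := by
      rintro _ rfl
      rfl
    exact hk.trans (h2 _ hxy.symm)
  choose Y' tY' cY' t2Y' hY' f' hf' hfA' using fun n : ℕ => h {x | n ∈ κ x}
  let YY : ℕ ⊕ ℕ → Type := fun i => Sum.elim Y Y' i
  let tYY : ∀ i, TopologicalSpace (YY i) := fun i => Sum.casesOn i tY tY'
  have cYY : ∀ i, CompactSpace (YY i) := fun i => Sum.casesOn i cY cY'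
  have t2YY : ∀ i, T2Space (YY i) := fun i => Sum.casesOn i t2Y t2Y'
  have hYY : ∀ i, LSig (univ : Set {g : YY i → ℝ // Continuous g}) := fun i =>
    Sum.casesOn i hY hY'
  let ff : ∀ i, X → YY i := fun i => Sum.casesOn i f f'
  have hff : ∀ i, Continuous (ff i) := fun i => Sum.casesOn i hf hf'
  have hfin := @gulko_of_maps (ℕ ⊕ ℕ) X _ _ _ YY tYY cYY t2YY hYY ff hff (by
    intro x y hxy
    have h1 : ∀ n, f n x = f n y := fun n => hxy (Sum.inl n)
    have h2 : ∀ n, f' n x = f' n y := fun n => hxy (Sum.inr n)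
    apply hκ
    · funext p
      change d p.1 (f p.1 x) p.2 = d p.1 (f p.1 y) p.2
      rw [h1]
    · ext n
      by_cases hx : n ∈ κ x
      · by_cases hy : n ∈ κ y
        · exact ⟨fun _ => hy, fun _ => hx⟩
        · exact absurd (h2 n) (hfA' n x hx y hy)
      · by_cases hy : n ∈ κ y
        · exact absurd (h2 n).symm (hfA' n y hy x hx)
        · exact ⟨fun h => absurd h hx, fun h => absurd h hy⟩)
  exact hfin.subtype

end Pool.Agent.H8.Gul
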